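import Pool.Agent.Run7.h870.LG.Dat

set_option autoImplicit false

/-!
# Almost prime values of irreducible polynomials in almost all residue classes, to every modulus

Let `f` be an irreducible polynomial of degree `g`, for example `x ^ 2 + 1`, and let `m` be a modulus. About
`H m / log m` of the integers `n ≤ H m` are such that `f(n)` has no prime factor below a small power of
`m`, and they lie in the residue classes `a` modulo `m` with `(f(a), m) = 1`. So if almost all of these
classes contain such an integer `n ≤ H m` then `H` is at least of the order of magnitude `log m`. We prove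
that this is sufficient, for every modulus: if `H = K log m` then all but a small proportion `ε(K)` of the
classes contain the right number of `n ≤ H m` for which `f(n)` has at most `2 g + 1` prime factors, all of
them at least `m ^ z`. For `n ^ 2 + 1`: at most five prime factors.
-/

namespace Pool.Agent.Results.MP_7169d5_nt.AlmostAllResidueClasses

open Finset Polynomial

/-- the classes `a` modulo `m`, `1 ≤ a ≤ m`, such that `f(a)` is prime to `m` -/
def reducedClasses (f : ℤ[X]) (m : ℕ) : Finset ℕ :=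
  (Icc 1 m).filter fun a => Int.gcd (f.eval (a : ℤ)) m = 1

open Classical in
/-- The number of the positive integers `n ≤ H m`, `n ≡ a` modulo `m`, such that `f(n)` has at most `r`
prime factors, counted with multiplicity, all of them at least `w`. -/
noncomputable def almostPrimeCount (f : ℤ[X]) (r : ℕ) (w : ℝ) (m a H : ℕ) : ℕ :=
  ((Icc 1 (H * m)).filter (fun n : ℕ => n ≡ a [MOD m] ∧
    (f.eval (n : ℤ)).natAbs.primeFactorsList.length ≤ r ∧
    ∀ p : ℕ, p.Prime → (p : ℤ) ∣ f.eval (n : ℤ) → w ≤ p)).card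

theorem red_iff (f : ℤ[X]) {m : ℕ} (hm : 0 < m) (a : ℕ) :
    Int.gcd (f.eval (a : ℤ)) m = 1 ↔
      ∀ p ∈ m.primeFactors, ¬ Run7.h870.LG.Qf (Run7.h870.LG.Fv f) p a := by
  rw [Int.gcd, Int.natAbs_natCast]
  constructor
  · intro h p hp hd
    have hp1 := Nat.mem_primeFactors.1 hp
    have h1 : p ∣ (f.eval (a : ℤ)).natAbs := Int.natCast_dvd.1 hd
    exact Nat.not_coprime_of_dvd_of_dvd hp1.1.one_lt h1 hp1.2.1 h
  · intro h
    by_contra h1
    obtain ⟨p, hp, h2, h3⟩ := Nat.Prime.not_coprime_iff_dvd.1 h1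
    exact h p (Nat.mem_primeFactors.2 ⟨hp, h3, by omega⟩) (Int.natCast_dvd.2 h2)

theorem card_red (f : ℤ[X]) {m : ℕ} (hm : 0 < m) :
    (reducedClasses f m).card = Run7.h870.LG.Phi (Run7.h870.LG.Fv f) m := by
  classical
  obtain ⟨P, hP⟩ : ∃ P : ℕ → Prop, P = fun a =>
    ∀ p ∈ m.primeFactors, ¬ Run7.h870.LG.Qf (Run7.h870.LG.Fv f) p a := ⟨_, rfl⟩
  have hper : Function.Periodic P m := by
    intro n
    rw [hP]
    apply propext
    refine forall₂_congr fun p hp => not_congr ?_
    have h1 : (p : ℤ) ∣ Run7.h870.LG.Fv f (n + m) - Run7.h870.LG.Fv f n :=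
      (Int.natCast_dvd_natCast.2 (Nat.dvd_of_mem_primeFactors hp)).trans
        (Run7.h870.LG.per_f f m n)
    exact Int.dvd_iff_dvd_of_dvd_sub h1
  have h1 : reducedClasses f m = (Ico 1 (1 + m)).filter P := by
    unfold reducedClasses
    ext a
    rw [mem_filter, mem_filter, mem_Icc, mem_Ico, red_iff f hm, hP]
    constructor
    · rintro ⟨⟨h2, h3⟩, h4⟩
      exact ⟨⟨h2, by omega⟩, h4⟩
    · rintro ⟨⟨h2, h3⟩, h4⟩
      exact ⟨⟨h2, by omega⟩, h4⟩
  have h2 := Nat.filter_Ico_card_eq_of_periodic 1 m P hper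
  rw [h1, h2, Nat.count_eq_card_filter_range]
  unfold Run7.h870.LG.Phi
  congr 1
  ext a
  rw [mem_filter, mem_filter, hP]

open Classical in
/-- **Almost prime values in almost all residue classes, to every modulus.** Let `f` be an irreducible
polynomial with integer coefficients, of degree `g ≥ 1`, with positive leading coefficient and without fixed
prime divisor, and let `z < (3 - √5) / 4 = 0.19…`. There are `δ > 0` and `σ > 0` with the following
property. For every `ε > 0` there are `K` and `m₀` such that, for all moduli `m ≥ m₀` and all `H` with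
`K log m ≤ H ≤ m ^ σ`: let `Φ` be the number of the classes `a` modulo `m` with `(f(a), m) = 1`; then all but
at most `ε Φ` of these classes contain at least `δ (m / Φ) H / log m` positive integers `n ≤ H m` for which
`f(n)` has at most `2 g + 1` prime factors, counted with multiplicity, all of them at least `m ^ z`. -/
theorem result (f : ℤ[X]) (hirr : Irreducible f) (hdeg : 0 < f.natDegree)
    (hlead : 0 < f.leadingCoeff)
    (hfix : ∀ p : ℕ, p.Prime → ∃ n : ℕ, ¬ (p : ℤ) ∣ f.eval (n : ℤ))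
    (z : ℝ) (hz : z < (3 - √5) / 4) :
    ∃ δ σ : ℝ, 0 < δ ∧ 0 < σ ∧ ∀ ε : ℝ, 0 < ε →
      ∃ (K : ℝ) (m₀ : ℕ), ∀ m H : ℕ, m₀ ≤ m → K * Real.log m ≤ H → (H : ℝ) ≤ (m : ℝ) ^ σ →
        (((reducedClasses f m).filter (fun a : ℕ =>
          (almostPrimeCount f (2 * f.natDegree + 1) ((m : ℝ) ^ z) m a H : ℝ) <
            δ * (m / (reducedClasses f m).card) * (H / Real.log m))).card : ℝ) ≤
          ε * (reducedClasses f m).card := by
  obtain ⟨c, D, cl, R, hF⟩ := Run7.h870.LG.dat_f (f := f) ⟨hirr, hdeg, hlead, hfix⟩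
  obtain ⟨τ, ζ, υ, lam, S, σ, hP, hσ, hσ1, hS, hr, hzζ⟩ :=
    Run7.h870.LG.params f.natDegree hdeg z hz
  obtain ⟨δ, hδ, h⟩ := Run7.h870.LG.classes hF (2 * f.natDegree + 1) hP hσ.le hσ1 hS hr
  refine ⟨δ, σ, hδ, hσ, fun ε hε => ?_⟩
  obtain ⟨K, -, m₀, hm⟩ := h ε hε
  refine ⟨K, max m₀ 1, fun m H h1 h2 h3 => ?_⟩
  have hm1 : 1 ≤ m := (le_max_right _ _).trans h1
  have hm0 : 0 < m := by omega
  have hm1r : (1 : ℝ) ≤ m := by exact_mod_cast hm1
  rw [card_red f hm0]
  refine le_trans ?_ (hm m ((le_max_left _ _).trans h1) H h2 h3)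
  have h4 : ((reducedClasses f m).filter (fun a : ℕ =>
      (almostPrimeCount f (2 * f.natDegree + 1) ((m : ℝ) ^ z) m a H : ℝ) <
        δ * (m / Run7.h870.LG.Phi (Run7.h870.LG.Fv f) m) * (H / Real.log m))).card ≤
      ((Icc 1 m).filter (fun a =>
        (∀ p ∈ m.primeFactors, ¬ Run7.h870.LG.Qf (Run7.h870.LG.Fv f) p a) ∧
        ((Run7.h870.LG.cset (Run7.h870.LG.Fv f) (2 * f.natDegree + 1) ((m : ℝ) ^ ζ) m a H).card : ℝ) <
        δ * (m / (Run7.h870.LG.Phi (Run7.h870.LG.Fv f) m)) * (H / Real.log m))).card := by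
    apply card_le_card
    intro a ha
    rw [mem_filter] at ha ⊢
    obtain ⟨ha1, ha2⟩ := ha
    unfold reducedClasses at ha1
    rw [mem_filter] at ha1
    refine ⟨ha1.1, (red_iff f hm0 a).1 ha1.2, lt_of_le_of_lt ?_ ha2⟩
    have h5 : (Run7.h870.LG.cset (Run7.h870.LG.Fv f) (2 * f.natDegree + 1) ((m : ℝ) ^ ζ) m a
        H).card ≤ almostPrimeCount f (2 * f.natDegree + 1) ((m : ℝ) ^ z) m a H := by
      unfold almostPrimeCount Run7.h870.LG.cset Run7.h870.LG.Fv
      apply card_le_card
      intro n hn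
      rw [mem_filter] at hn ⊢
      refine ⟨hn.1, hn.2.1, hn.2.2.1, fun p hp hd => le_trans ?_ (hn.2.2.2 p hp hd)⟩
      exact Real.rpow_le_rpow_of_exponent_le hm1r hzζ
    exact_mod_cast h5
  exact_mod_cast h4

end Pool.Agent.Results.MP_7169d5_nt.AlmostAllResidueClasses
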