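import Pool.Agent.Run7.h536.CE20

set_option autoImplicit false

/-!
# The least primes `n² + c` in ALL residue classes to almost all moduli

For almost all the moduli `q ≤ Q` (from an arbitrary set of density at least a power of `1 / log X`), for ALL residue
classes `ρ` modulo `q` and almost all integers `c` of the size `(Q X)²`: if no prime divides all the numbers `n² + c`,
`n ≡ ρ mod q` (that is, if `ρ² + c` and `q` are coprime), then `n² + c` is prime for some `n ≡ ρ mod q` of the size `Q X`
at most, where `X` may be any small power of `Q` (in the language of Linnik's theorem the exponent is `1 + ε`). In fact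
there are at least `X / (log X (log log X) ^ V)` such `n`, the expected order of magnitude up to a power of `log log X`.

The same holds uniformly for all the polynomials with a given leading term: `n² + b n + c` for ALL `b`, of the natural
size, which may depend on `q`, `ρ`; and for systems of polynomials `F_l(n) + c_l` of any degrees at least two whose values
are primes simultaneously, for almost all `(c_1, ..., c_s)`.

Proof. The polynomials in `m`, `n = q m + ρ`, have the leading coefficient `q ^ d`, their lower coefficients are arbitrary.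
The family has nearly minimal additive energy (`Run7.h536.CE1` to `CE4`); the circle method for correlations of primes along
families of nearly minimal energy (starting files, `TH872.Sq`, `R459.fam_near_fin`) and a maximal choice of the bad data
(`CE5` to `CE8`) give asymptotic formulas with a truncated singular product; this is bounded from below by Mertens' theorem
(`CE18`, `CE19`) unless there is a fixed prime divisor (`CE20`).
-/

namespace Pool.Agent.Results.MP_7169d5_nt.LeastPrimesInAllClasses

open Finset Polynomial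

/-- No prime divides the products of the `F_l(n) + c_l` for all the integers `n = q m + ρ`. -/
def Admissible {s : ℕ} (F : Fin s → ℤ[X]) (c : Fin s → ℤ) (q : ℕ) (ρ : ℤ) : Prop :=
  ∀ p : ℕ, p.Prime → ∃ m : ℤ, ¬ (p : ℤ) ∣ ∏ l, ((F l).eval (q * m + ρ) + c l)

open Classical in
/-- The number of the integers `n = q m + ρ`, `1 ≤ m ≤ X`, for which all the `|F_l(n) + c_l|` are primes. -/
noncomputable def primeCount {s : ℕ} (F : Fin s → ℤ[X]) (c : Fin s → ℤ) (q : ℕ) (ρ : ℤ) (X : ℕ) : ℕ :=
  ((Icc 1 X).filter (fun m : ℕ => ∀ l, ((F l).eval (q * (m : ℤ) + ρ) + c l).natAbs.Prime)).card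

open Classical in
/-- The number of the integer vectors `(c_l)`, `|c_l| ≤ H_l`, such that no prime divides the products of the `F_l(n) + c_l`
for all the integers `n = q m + ρ`, but all these numbers are simultaneously prime (up to their signs) for fewer than
`X / ((log X) ^ s (log log X) ^ V)` of the integers `n = q m + ρ`, `1 ≤ m ≤ X`. -/
noncomputable def exceptions {s : ℕ} (H : Fin s → ℕ) (F : Fin s → ℤ[X]) (q : ℕ) (ρ : ℤ) (X V : ℕ) : ℕ :=
  ((Fintype.piFinset (fun l => Icc (-(H l : ℤ)) (H l))).filter (fun c : Fin s → ℤ => Admissible F c q ρ ∧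
    (primeCount F c q ρ X : ℝ) < X / (Real.log X ^ s * Real.log (Real.log X) ^ V))).card

open Classical in
/-- Fix the degrees `d l ≥ 2` (one degree, `2`, in the title) and put `V = 4 ∑ d l + 6`. Fix `r`, `B`, `C`, `U`. For large
`X` let `Q ≤ X ^ r`, `X ≤ Q ^ r`, and let `A` be ANY set of positive integers up to `Q` with at least `Q / (log X) ^ C`
elements, and `κ l ≠ 0` integers. For all but at most `|A| / (log X) ^ U` of the moduli `q ∈ A`: for ALL integers `ρ` and ALL
integer polynomials `F_l` of degree at most `d l` with the coefficient `κ l` of `x ^ d l` and `|F_l(q m + ρ)| ≤ B N_l` for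
`0 ≤ m < 2 X`, `N_l = (Q X) ^ d l`: for all the integer vectors `(c_l)`, `|c_l| ≤ B N_l`, but at most `∏ N_l / (log X) ^ U`,
either a prime divides the products of the `F_l(n) + c_l` for all the `n = q m + ρ`, or there are at least
`X / ((log X) ^ s (log log X) ^ V)` integers `n = q m + ρ`, `1 ≤ m ≤ X`, for which all the `|F_l(n) + c_l|` are primes. -/
theorem result (s : ℕ) (d : Fin s → ℕ) (hd : ∀ l, 2 ≤ d l) (r B C U : ℕ) (hr : 1 ≤ r) (hB : 1 ≤ B) :
    ∃ x₀ : ℕ, ∀ X : ℕ, x₀ ≤ X → ∀ Q : ℕ, Q ≤ X ^ r → X ≤ Q ^ r →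
    ∀ A : Finset ℕ, A ⊆ Icc 1 Q → (Q : ℝ) ≤ Real.log X ^ C * A.card →
    ∀ κ : Fin s → ℤ, (∀ l, κ l ≠ 0) →
    ((A.filter (fun q : ℕ => ∃ F : Fin s → ℤ[X], ∃ ρ : ℤ, (∀ l, (F l).natDegree ≤ d l ∧ (F l).coeff (d l) = κ l) ∧
      (∀ l, ∀ m < 2 * X, |(F l).eval (q * (m : ℤ) + ρ)| ≤ B * (Q * X) ^ d l) ∧
      (∏ l, (((Q * X) ^ d l : ℕ) : ℝ)) / Real.log X ^ U <
        exceptions (fun l => B * (Q * X) ^ d l) F q ρ X (4 * (∑ l, d l) + 6))).card : ℝ) ≤
      A.card / Real.log X ^ U := by
  obtain ⟨x0, h0⟩ := Pool.Agent.Run7.h536.CE.ap_least s d hd (r + 1) B C U (by omega) hB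
  refine ⟨x0, fun X hX Q hQ1 hQ2 A hA hAQ κ hκ => ?_⟩
  refine le_trans (Nat.cast_le.2 (card_le_card ?_)) (h0 X hX Q (by simpa using hQ1) (by simpa using hQ2) A hA hAQ κ hκ)
  intro q hq
  rw [mem_filter] at hq ⊢
  obtain ⟨hqA, F, ρ, hF1, hF3, hF4⟩ := hq
  refine ⟨hqA, F, ρ, fun l => (hF1 l).1, fun l => (hF1 l).2, ?_, lt_of_lt_of_le hF4 (le_of_eq ?_)⟩
  · intro l n hn
    have := hF3 l n (mem_range.1 hn)
    push_cast
    exact this
  · unfold exceptions primeCount Admissible
    rw [show 4 * (∑ l, d l) + 6 = 4 * (∑ l, d l + 1) + 2 by ring]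
    simp only [Nat.cast_mul]

end Pool.Agent.Results.MP_7169d5_nt.LeastPrimesInAllClasses
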