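import Pool.Agent.Run7.h285.Q.All

/-!
# The prime values of quadratic polynomials at the optimal scale `T log X` and at all longer scales at once

Fix a leading coefficient `1 ≤ a ≤ X^(1 - ρ)` (for instance `a = 1`), an interval `(b₀, b₀ + M]` of linear coefficients of length only
`X^(1/3) (log X)^B`, and a starting point `m`. For all but a proportion `ε` of the pairs `(c, b)`, `|c| ≤ X`, `b₀ < b ≤ b₀ + M`,
the formula of Hardy and Littlewood, with its true constant, holds for the primes `|a n² + b n + c|`, `m < n ≤ m + H`, for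
ALL lengths `H ≥ T log X` at once (as long as `a (m + H)² ≤ X (log X)^C`), where `T` depends on the precision `ε` alone.
The order `log X` of the length is optimal: a window of length `c log X`, `c` small, contains no prime for almost all pairs.

Method. The second moment over the pairs `(c, b)`: for `i < j` in the window the values at `i` and `j` differ by
`(j - i) (a (i + j) + b)`, so the off-diagonal terms are sums over arithmetic progressions of difference `j - i` and of length `M`;
the size of `a` plays no part. For the primes minus their sieve model these sums are negligible by the theorem on primes in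
almost all intervals of length `x^(1/3) (log x)^C` twisted by additive characters of small moduli (project CR of helper757), for the
difference of two sieve models by the fundamental lemma. The second moment of the primes minus the model at the length `H` is
`O(log X / H)` relative to the square of the mean, so that the exceptional sets at the scales `T (1 + ε/10)^j log X` have a
bounded sum; the differences of the models at the two levels need to be compared only at lengths up to a power of `log X`,
that is at `O(log log X)` scales, since beyond them the fundamental lemma applies directly at the higher level; and the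
counting functions are monotone in `H`.
-/

set_option autoImplicit false

namespace Pool.Agent.Results.MP_7169d5_nt.QuadraticsAtAllScales

open Finset Filter Topology

/-- the number of the residues `r` modulo `p` with `p | a r² + b r + c` -/
noncomputable def nu (a b c : ℤ) (p : ℕ) : ℕ :=
  #((range p).filter (fun r : ℕ => (p : ℤ) ∣ a * (r : ℤ) ^ 2 + b * r + c))

/-- the constant of Hardy and Littlewood, cut at `N`: the product of `(1 - ν(p) / p) / (1 - 1 / p)` over the primes `p ≤ N` -/
noncomputable def HL (a b c : ℤ) (N : ℕ) : ℝ :=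
  ∏ p ∈ (range (N + 1)).filter Nat.Prime, (1 - (nu a b c p : ℝ) / p) / (1 - 1 / (p : ℝ))

/-- the number of `n` with `m < n ≤ m + H` such that `|a n² + b n + c|` is a prime -/
def P (a b c : ℤ) (m H : ℕ) : ℕ :=
  #((Ioc m (m + H)).filter (fun n : ℕ => Nat.Prime (a * (n : ℤ) ^ 2 + b * n + c).natAbs))

/-- the sum of `1 / log |a n² + b n + c|` over `m < n ≤ m + H` (the terms with `|a n² + b n + c| ≤ 1` are `0` in Lean) -/
noncomputable def W (a b c : ℤ) (m H : ℕ) : ℝ :=
  ∑ n ∈ Ioc m (m + H), 1 / Real.log ((a * (n : ℤ) ^ 2 + b * n + c).natAbs : ℝ)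

/-- **Quadratic polynomials at all scales from the optimal one on, almost everywhere.** For every `ε > 0` there is `T > 0`
such that for all `ρ > 0` and `C` there are `B` and `X₀` with the following property for all `X ≥ X₀`. Let `b₀` be an integer and
let `a`, `M`, `m` be natural numbers such that `1 ≤ a ≤ X^(1 - ρ)`, `X^(1/3) (log X)^B ≤ M` and `(|b₀| + M)² ≤ a X (log X)^C`.
There is a set of at most `ε X M` pairs `(c, b)`, `|c| ≤ X`, `b₀ < b ≤ b₀ + M`, such that for every other such pair for which no prime
divides all the numbers `a n² + b n + c`: the discriminant `b² - 4 a c` is not a square, the product of Hardy and Littlewood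
converges to a number `h > 0`, and for ALL `H ≥ T log X` with `a (m + H)² ≤ X (log X)^C` the number of the `n`, `m < n ≤ m + H`,
for which `|a n² + b n + c|` is a prime, is `h ∑_{m < n ≤ m + H} 1 / log |a n² + b n + c|` up to a relative error `ε`. -/
theorem result : ∀ ε : ℝ, 0 < ε → ∃ T : ℝ, 0 < T ∧ ∀ (ρ : ℝ) (C : ℕ), 0 < ρ → ∃ B X₀ : ℕ, ∀ X : ℕ, X₀ ≤ X →
    ∀ (b₀ : ℤ) (a M m : ℕ), 1 ≤ a → (a : ℝ) ≤ (X : ℝ) ^ (1 - ρ) → (X : ℝ) ^ (1 / 3 : ℝ) * Real.log X ^ B ≤ M →
    (|(b₀ : ℝ)| + M) ^ 2 ≤ a * X * Real.log X ^ C →
    ∃ Bad ⊆ Icc (-(X : ℤ)) X ×ˢ Ioc b₀ (b₀ + M), (#Bad : ℝ) ≤ ε * (X * M) ∧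
      ∀ c ∈ Icc (-(X : ℤ)) X, ∀ b ∈ Ioc b₀ (b₀ + M), (c, b) ∉ Bad → (∀ p : ℕ, p.Prime → nu a b c p < p) →
        ¬ IsSquare (b ^ 2 - 4 * a * c) ∧ ∃ h : ℝ, 0 < h ∧ Tendsto (fun N : ℕ => HL a b c N) atTop (𝓝 h) ∧
          ∀ H : ℕ, T * Real.log X ≤ H → (a : ℝ) * (m + H) ^ 2 ≤ X * Real.log X ^ C →
          |(P a b c m H : ℝ) - h * W a b c m H| ≤ ε * (h * W a b c m H) := by
  intro ε hε
  obtain ⟨T, hT, h1⟩ := Run7.h285.Q.eqm_hl ε hε
  refine ⟨T, hT, fun ρ C hρ => ?_⟩
  obtain ⟨B, X₀, h2⟩ := h1 ρ C hρ
  refine ⟨B, X₀, fun X hX b₀ a M m ha haX hM hb => ?_⟩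
  obtain ⟨Bad, hB1, hB2, hB3⟩ := h2 X hX b₀ a M m ha haX hM hb
  exact ⟨Bad, hB1, hB2, fun c hc b hb' hbad hloc => hB3 c hc b hb' hbad hloc⟩

end Pool.Agent.Results.MP_7169d5_nt.QuadraticsAtAllScales
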