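import Mathlib
import Pool.Agent.Run7.h870.LK.Fin

/-!
# Systems of polynomials: all values almost prime, in almost all intervals of the optimal length

Let `f₁, …, f_k` be distinct irreducible polynomials with integer coefficients, of positive degree and with
positive leading coefficients, such that no prime divides `f₁(m) ⋯ f_k(m)` for all `m`; for example
`x ^ 2 + 1` and `(x + 2) ^ 2 + 1`. Let `2 ζ (1 + 2 / (1 - e ^ (-1/k)) ^ 2) < 1`. Then for every function
`ψ → ∞` almost all intervals `(n, n + ψ(n) (log n) ^ k]` contain integers `m` for which every `f_i(m)` has at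
most `deg f_i / ζ` prime factors, all of them at least `n ^ ζ`; and they contain the right order of magnitude
of such `m`. The length is best possible, since there are only `O(X / (log X) ^ k)` such `m` up to `X`.

Proof. Second moments over the intervals. The values are sifted up to `X ^ ε₁` by the fundamental lemma and
from there to `X ^ ζ` by products of truncated inclusion-exclusion sums over blocks of primes; pairs `n`,
`n + h` are controlled by the singular series of the polynomials `f_i(x)`, `f_j(x + h)` on average over `h`.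
The shifts `f_i(x) = f_j(x + h)`, which would spoil this, are avoided by passing to a residue class modulo a
large prime.
-/

set_option autoImplicit false

namespace Pool.Agent.Results.MP_7169d5_nt.SystemsAtOptimalScale

open Finset Polynomial

/-- For every `i` the value `f_i(m)` is larger than `1`, it has at most `deg f_i / ζ` prime factors (counted
with multiplicity), and all its prime factors are at least `X ^ ζ`. -/
def Good {k : ℕ} (f : Fin k → ℤ[X]) (ζ : ℝ) (X m : ℕ) : Prop :=
  ∀ i, 1 < (f i).eval (m : ℤ) ∧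
    ((((f i).eval (m : ℤ)).natAbs.primeFactorsList.length : ℕ) : ℝ) ≤ (f i).natDegree / ζ ∧
    ∀ p : ℕ, p.Prime → (p : ℤ) ∣ (f i).eval (m : ℤ) → (X : ℝ) ^ ζ ≤ p

open Classical in
/-- **Systems of polynomials: almost primes at the optimal scale.** -/
theorem result {k : ℕ} (hk : 1 ≤ k) (f : Fin k → ℤ[X]) (irr : ∀ i, Irreducible (f i))
    (deg : ∀ i, 0 < (f i).natDegree) (lead : ∀ i, 0 < (f i).leadingCoeff) (inj : Function.Injective f)
    (adm : ∀ p : ℕ, p.Prime → ∃ m : ℕ, ∀ i, ¬ (p : ℤ) ∣ (f i).eval (m : ℤ))
    (ζ : ℝ) (hζ : 0 < ζ) (hζk : 2 * ζ * (1 + 2 / (1 - Real.exp (-(1 / (k : ℝ)))) ^ 2) < 1) :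
    ∃ δ : ℝ, 0 < δ ∧ ∀ ε : ℝ, 0 < ε → ∃ K : ℝ, 0 < K ∧ ∃ X0 : ℕ, ∀ X : ℕ, X0 ≤ X → ∀ H : ℕ,
      K * Real.log X ^ k ≤ H → H ≤ X →
      (((Icc 1 X).filter (fun n => (((Ioc n (n + H)).filter (Good f ζ X)).card : ℝ) <
        δ * H / Real.log X ^ k)).card : ℝ) ≤ ε * X := by
  have h := Run7.h870.LK.final (ι := Fin k) f ⟨irr, deg, lead, inj, adm⟩ (by rw [Fintype.card_fin]; exact hk)
    hζ (by rw [Fintype.card_fin]; exact hζk)
  rw [Fintype.card_fin] at h
  exact h

end Pool.Agent.Results.MP_7169d5_nt.SystemsAtOptimalScale
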